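import Pool.Agent.Work.MP_6efb98_lc.Main

/-!
The strong polarized relation for a cardinal `κ` with `ℵ₁ < κ < 𝔠` can be destroyed by the Levy
collapse of the continuum to `κ`.

All definitions used in the statement (transitive models of ZFC, relativised cardinals, the
relation, the Levy collapse, generic filters, values of names and `M[G]`) are in
`Pool/Agent/Work/MP_6efb98_lc/Defs.lean`.
-/

namespace Pool.Agent.Results.MP_6efb98_lc.LevyCollapse

open Pool.Agent.Work.MP_6efb98_lc

/-- There are a countable transitive model `M` of ZFC and, in `M`, cardinals `ℵ₁ < κ < λ = 𝔠` with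
`κ` regular such that the strong polarized relation for `κ` holds in `M` and such that for
every `M`-generic `G ⊆ Levy(κ, λ)` (and there are such `G`), `κ` is still a cardinal in `M[G]`
and the strong polarized relation for `κ` fails in `M[G]`. -/
theorem result : ∃ M : Set ZFSet.{0}, M.Countable ∧ IsModel M ∧ ∃ κ l : ZFSet.{0},
    IsCardinal M κ ∧ (∃ μ ∈ κ, ZFSet.omega ∈ μ ∧ IsCardinal M μ) ∧
    (∀ α ∈ κ, ∀ f ∈ M, ZFSet.IsFunc α κ f → ∃ β ∈ κ, ZFSet.IsFunc α β f) ∧
    κ ∈ l ∧ IsContinuum M l ∧ Polarized M κ ∧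
    (∃ G, IsGeneric M (Levy M κ l) G) ∧
    ∀ G, IsGeneric M (Levy M κ l) G → IsCardinal (Ext M G) κ ∧ ¬ Polarized (Ext M G) κ :=
  main

end Pool.Agent.Results.MP_6efb98_lc.LevyCollapse
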